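import Pool.Agent.Helper68.ES.St5

/-!
# Project ES (MP_cb927e_an): module EGS, the points of age level `q`
-/

set_option autoImplicit false

open MeasureTheory Set Filter Topology
open scoped ENNReal RealInnerProductSpace

namespace Pool.Agent.Helper79.ES

open Pool.Agent.Helper68.ES Pool.Agent.Helper68.EP Pool.Agent.Helper20.RG
open Pool.Agent.Helper20.RL (RQ Rich BM Fml Hit)
open Pool.Agent.Helper68.LM (Pl BB Bd Av HL ft fm DQ)

open Classical in
/-- a set of integers of diameter less than `n` has at most `n` elements -/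
lemma tsum_diam (K : Set ℤ) (n : ℕ) (h : ∀ k₁ ∈ K, ∀ k₂ ∈ K, k₂ < k₁ + n) :
    ∑' k : ℤ, (if k ∈ K then (1 : ℝ≥0∞) else 0) ≤ n := by
  rcases K.eq_empty_or_nonempty with h0 | ⟨k₁, hk₁⟩
  · subst h0
    simp
  · obtain ⟨k₀, hk₀, hmin⟩ := Int.exists_least_of_bdd (P := fun k => k ∈ K)
      ⟨k₁ - n, fun z hz => by have := h z hz k₁ hk₁; omega⟩ ⟨k₁, hk₁⟩
    have h1 : ∀ k ∉ Finset.Ico k₀ (k₀ + n), (if k ∈ K then (1 : ℝ≥0∞) else 0) = 0 := by
      intro k hk
      rw [if_neg]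
      intro hkK
      exact hk (Finset.mem_Ico.2 ⟨hmin k hkK, h k₀ hk₀ k hkK⟩)
    rw [tsum_eq_sum h1]
    calc ∑ k ∈ Finset.Ico k₀ (k₀ + n), (if k ∈ K then (1 : ℝ≥0∞) else 0)
        ≤ ∑ k ∈ Finset.Ico k₀ (k₀ + n), (1 : ℝ≥0∞) := by
          refine Finset.sum_le_sum fun k _ => ?_
          split_ifs
          · exact le_rfl
          · exact zero_le_one
      _ = n := by simp

theorem hEGS (hEFB : Pool.Agent.Helper68.EP.StEFB) : Pool.Agent.Helper68.ES.StEGS := by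
  classical
  intro E D q hE _ hq
  obtain ⟨h1, h2, -⟩ := hEFB
  have hag : ag q = 2 ^ q := by
    unfold ag
    rw [if_neg (by omega)]
  have hEg : ∀ k : ℤ, Eg E D q k = Fb E D (k - 2 ^ q) \ Fb E D (k - 2 ^ (q + 1)) := by
    intro k
    unfold Eg
    rw [hag]
  have hsub : ∀ k : ℤ, Eg E D q k ⊆ Fb E D (k - 2 ^ q) := by
    intro k
    rw [hEg]
    exact sdiff_subset
  have hBM : ∀ k : ℤ, BM (Eg E D q k) := by
    intro k
    obtain ⟨hm1, hb1⟩ := (h1 E D (k - 2 ^ q)).2.2 hE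
    obtain ⟨hm2, -⟩ := (h1 E D (k - 2 ^ (q + 1))).2.2 hE
    refine ⟨?_, hb1.subset (hsub k)⟩
    rw [hEg]
    exact hm1.diff hm2
  refine ⟨fun k => ⟨hBM k, hsub k⟩, ?_⟩
  have hpt : ∀ z : Pl, ∑' k : ℤ, (Eg E D q k).indicator (1 : Pl → ℝ≥0∞) z ≤
      E.indicator (fun _ => ENNReal.ofReal (2 ^ q)) z := by
    intro z
    by_cases hz : z ∈ E
    · rw [indicator_of_mem hz]
      have e1 : ∀ k : ℤ, (Eg E D q k).indicator (1 : Pl → ℝ≥0∞) z =
          if k ∈ {k : ℤ | z ∈ Eg E D q k} then (1 : ℝ≥0∞) else 0 := by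
        intro k
        rfl
      simp_rw [e1]
      have e2 : ENNReal.ofReal ((2 : ℝ) ^ q) = ((2 ^ q : ℕ) : ℝ≥0∞) := by
        rw [← ENNReal.ofReal_natCast]
        push_cast
        rfl
      rw [e2]
      apply tsum_diam
      intro k₁ hk₁ k₂ hk₂
      by_contra hlt
      push Not at hlt
      simp only [mem_setOf_eq, hEg] at hk₁ hk₂
      apply hk₂.2
      refine h2 E D D (k₁ - 2 ^ q) (k₂ - 2 ^ (q + 1)) ?_ le_rfl hk₁.1
      push_cast at hlt
      have : (2 : ℤ) ^ (q + 1) = 2 * 2 ^ q := by rw [pow_succ]; ring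
      rw [this]
      linarith
    · rw [indicator_of_notMem hz]
      have e1 : ∀ k : ℤ, (Eg E D q k).indicator (1 : Pl → ℝ≥0∞) z = 0 := by
        intro k
        exact indicator_of_notMem (fun h => hz ((h1 E D _).1 (hsub k h))) _
      simp_rw [e1]
      simp
  calc ∑' k : ℤ, volume (Eg E D q k)
      = ∑' k : ℤ, ∫⁻ z, (Eg E D q k).indicator (1 : Pl → ℝ≥0∞) z := by
        refine tsum_congr fun k => ?_
        rw [lintegral_indicator_one (hBM k).1]
    _ = ∫⁻ z, ∑' k : ℤ, (Eg E D q k).indicator (1 : Pl → ℝ≥0∞) z := by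
        rw [lintegral_tsum]
        intro k
        exact (measurable_one.indicator (hBM k).1).aemeasurable
    _ ≤ ∫⁻ z, E.indicator (fun _ => ENNReal.ofReal (2 ^ q)) z := lintegral_mono hpt
    _ = ENNReal.ofReal (2 ^ q) * volume E := by
        rw [lintegral_indicator_const hE.1]

end Pool.Agent.Helper79.ES
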