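import Pool.Agent.Helper68.ES.St3
import Pool.Agent.Helper80.RL.M_LMX

/-!
# Project ES (MP_cb927e_an): module FAT, fat cells
-/

set_option autoImplicit false

open MeasureTheory Set Filter Topology
open scoped ENNReal RealInnerProductSpace

namespace Pool.Agent.Helper79.ES

open Pool.Agent.Helper68.ES Pool.Agent.Helper68.EP Pool.Agent.Helper20.RG
open Pool.Agent.Helper20.RL (RQ Rich BM Fml Hit)
open Pool.Agent.Helper68.LM (Pl BB Bd Av HL ft fm DQ)

lemma floor_two {u v : ℝ} (h : |u - v| < 2) : |⌊u⌋ - ⌊v⌋| ≤ 2 := by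
  rw [abs_lt] at h
  have h1 := Int.floor_le u
  have h2 := Int.lt_floor_add_one u
  have h3 := Int.floor_le v
  have h4 := Int.lt_floor_add_one v
  have h5 : (⌊u⌋ : ℝ) < ⌊v⌋ + 3 := by linarith
  have h6 : (⌊v⌋ : ℝ) < ⌊u⌋ + 3 := by linarith
  have h7 : ⌊u⌋ < ⌊v⌋ + 3 := by exact_mod_cast h5
  have h8 : ⌊v⌋ < ⌊u⌋ + 3 := by exact_mod_cast h6
  rw [abs_le]
  constructor <;> omega

/-- a cell of equal sides is contained in the 25 squares -/
lemma cell_DQ5 (hLGR : Pool.Agent.Helper20.RL.StLGR) {s : ℝ} (hs : |s| ≤ 1) {k : ℤ} {x z : Pl}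
    (hx : x ∈ RQ s k k z) : x ∈ DQ5 k z := by
  have h2k : (0 : ℝ) < 2 ^ k := by positivity
  obtain ⟨h1, -, h3⟩ := hLGR.2.2.2.1 s k k z x hs hx
  constructor
  · apply floor_two
    rw [← sub_div, abs_div, abs_of_pos h2k, div_lt_iff₀ h2k]
    linarith
  · apply floor_two
    rw [← sub_div, abs_div, abs_of_pos h2k, div_lt_iff₀ h2k]
    linarith

/-- a cell of equal sides is covered by three dyadic squares -/
lemma three_squares {s : ℝ} (hs : |s| ≤ 1) (k : ℤ) (z : Pl) (P : Set Pl) (c : ℝ≥0∞)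
    (h : ∀ z' ∈ P, volume (P ∩ DQ k z') ≤ c) : volume (P ∩ RQ s k k z) ≤ 3 * c := by
  have h2k : (0 : ℝ) < 2 ^ k := by positivity
  set i : ℤ := ⌊z 0 / (2 : ℝ) ^ k⌋ with hi
  set j : ℤ := ⌊pr s z / (2 : ℝ) ^ k⌋ with hj
  set L : ℝ := j + min (s * i) (s * (i + 1)) with hL
  set m : ℤ := ⌊L⌋ with hm
  set S : ℤ → Set Pl := fun n => {x | ⌊x 0 / (2 : ℝ) ^ k⌋ = i ∧ ⌊x 1 / (2 : ℝ) ^ k⌋ = n} with hS
  have hcov : P ∩ RQ s k k z ⊆ (P ∩ S m) ∪ ((P ∩ S (m + 1)) ∪ (P ∩ S (m + 2))) := by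
    rintro x ⟨hxP, hx0, hx1⟩
    have e1 := Int.floor_le (x 0 / (2 : ℝ) ^ k)
    have e2 := Int.lt_floor_add_one (x 0 / (2 : ℝ) ^ k)
    have e3 := Int.floor_le (pr s x / (2 : ℝ) ^ k)
    have e4 := Int.lt_floor_add_one (pr s x / (2 : ℝ) ^ k)
    rw [hx0] at e1 e2
    rw [hx1] at e3 e4
    have e5 : x 1 / (2 : ℝ) ^ k = pr s x / (2 : ℝ) ^ k + s * (x 0 / (2 : ℝ) ^ k) := by
      unfold pr
      ring
    have hs' := abs_le.1 hs
    have e6 : L ≤ x 1 / (2 : ℝ) ^ k ∧ x 1 / (2 : ℝ) ^ k < L + 2 := by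
      rw [e5, hL]
      rcases le_total 0 s with h0 | h0
      · have f1 : min (s * i) (s * ((i : ℝ) + 1)) = s * i :=
          min_eq_left (mul_le_mul_of_nonneg_left (by linarith) h0)
        rw [f1]
        constructor
        · nlinarith [mul_le_mul_of_nonneg_left e1 h0]
        · nlinarith [mul_le_mul_of_nonneg_left e2.le h0]
      · have f1 : min (s * i) (s * ((i : ℝ) + 1)) = s * ((i : ℝ) + 1) :=
          min_eq_right (by nlinarith)
        rw [f1]
        constructor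
        · nlinarith [mul_le_mul_of_nonpos_left e2.le h0]
        · nlinarith [mul_le_mul_of_nonpos_left e1 h0]
    have e7 : m ≤ ⌊x 1 / (2 : ℝ) ^ k⌋ := Int.floor_mono e6.1
    have e8 : ⌊x 1 / (2 : ℝ) ^ k⌋ < m + 3 := by
      rw [Int.floor_lt]
      have := Int.lt_floor_add_one L
      push_cast
      rw [hm]
      linarith [e6.2]
    have e9 : ⌊x 1 / (2 : ℝ) ^ k⌋ = m ∨ ⌊x 1 / (2 : ℝ) ^ k⌋ = m + 1 ∨
        ⌊x 1 / (2 : ℝ) ^ k⌋ = m + 2 := by omega
    rcases e9 with h9 | h9 | h9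
    · exact Or.inl ⟨hxP, hx0, h9⟩
    · exact Or.inr (Or.inl ⟨hxP, hx0, h9⟩)
    · exact Or.inr (Or.inr ⟨hxP, hx0, h9⟩)
  have hSn : ∀ n : ℤ, volume (P ∩ S n) ≤ c := by
    intro n
    rcases (P ∩ S n).eq_empty_or_nonempty with h0 | ⟨z', hz'P, hz'0, hz'1⟩
    · rw [h0]; simp
    · have : S n ⊆ DQ k z' := by
        rintro x ⟨hx0, hx1⟩
        intro l
        fin_cases l
        · show ⌊x 0 / (2 : ℝ) ^ k⌋ = ⌊z' 0 / (2 : ℝ) ^ k⌋
          rw [hx0, hz'0]
        · show ⌊x 1 / (2 : ℝ) ^ k⌋ = ⌊z' 1 / (2 : ℝ) ^ k⌋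
          rw [hx1, hz'1]
      exact (measure_mono (inter_subset_inter_right _ this)).trans (h z' hz'P)
  calc volume (P ∩ RQ s k k z)
      ≤ volume ((P ∩ S m) ∪ ((P ∩ S (m + 1)) ∪ (P ∩ S (m + 2)))) := measure_mono hcov
    _ ≤ volume (P ∩ S m) + (volume (P ∩ S (m + 1)) + volume (P ∩ S (m + 2))) :=
        (measure_union_le _ _).trans (add_le_add le_rfl (measure_union_le _ _))
    _ ≤ c + (c + c) := add_le_add (hSn _) (add_le_add (hSn _) (hSn _))
    _ = 3 * c := by ring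

/-- richness from an inequality -/
lemma rich_of {K : Set Pl} {s : ℝ} {a B' : ℤ} {y : Pl} {x θ' κ₀ t : ℝ} (hκ : 0 < κ₀) (ht : 0 < t)
    (hx : x = θ' * (2 : ℝ) ^ (a + B') * t)
    (h : ENNReal.ofReal x ≤ ENNReal.ofReal (10 * κ₀ * t) * volume (K ∩ RQ s a B' y)) :
    Rich K s a B' (θ' / (10 * κ₀)) y := by
  unfold Rich
  have h10 : 0 < 10 * κ₀ * t := by positivity
  have e1 : θ' / (10 * κ₀) * (2 : ℝ) ^ (a + B') = x / (10 * κ₀ * t) := by
    rw [hx]
    field_simp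
  rw [e1, ENNReal.ofReal_div_of_pos h10]
  exact ENNReal.div_le_of_le_mul' h

theorem hFAT (_hPT : Pool.Agent.Helper20.RG.StPT) (hLGR : Pool.Agent.Helper20.RL.StLGR)
    (_hEQ : Pool.Agent.Helper68.EP.StEQ) : Pool.Agent.Helper68.ES.StFAT := by
  intro s a B P F R θ' κ₀ dD y hs hBa hP hPF _ ha hθ hdD hdκ hd hk hrich
  have hLMX := Pool.Agent.Helper80.RL.hLMX hLGR
  have hκ : 0 < κ₀ := hdD.trans_le hdκ
  set Q : Set Pl := RQ s a B y with hQ
  have hPfin : volume (P ∩ Q) ≠ ∞ :=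
    ((measure_mono inter_subset_left).trans_lt hP.2.measure_lt_top).ne
  have hpos : 0 < volume (P ∩ Q) := lt_of_lt_of_le (ENNReal.ofReal_pos.2 (by positivity)) hrich
  -- cells of points of `Q`
  have hself : ∀ (k b : ℤ) (z : Pl), z ∈ RQ s k b z := fun k b z => (hLGR.1 s k b z).2.2
  have heq : ∀ (k b : ℤ) (y z : Pl), z ∈ RQ s k b y → RQ s k b z = RQ s k b y := hLGR.2.1 s
  have hmon : ∀ (k b k' b' : ℤ) (y : Pl), k ≤ k' → b ≤ b' → RQ s k b y ⊆ RQ s k' b' y :=
    hLGR.2.2.1 s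
  set PA : Set Pl := {z | z ∈ P ∧ R z ≤ B} ∩ Q with hPA
  set PB : Set Pl := {z | (z ∈ P ∧ z ∈ Q) ∧ B < R z} with hPB
  have hsplit : volume (P ∩ Q) ≤ volume PA + volume PB := by
    refine (measure_mono ?_).trans (measure_union_le _ _)
    rintro z ⟨h1, h2⟩
    rcases le_or_gt (R z) B with h | h
    · exact Or.inl ⟨⟨h1, h⟩, h2⟩
    · exact Or.inr ⟨⟨h1, h2⟩, h⟩
  rcases le_or_gt (volume (P ∩ Q)) (2 * volume PA) with hA | hA
  · -- Case A
    refine ⟨B, le_rfl, hBa, hA.trans ?_, ?_⟩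
    · exact mul_le_mul_left (by norm_num) _
    · have key := hLMX s id id (Iic B)
        (fun k => {x | ∃ z, (z ∈ P ∧ z ∈ Q) ∧ R z = k ∧ x ∈ RQ s k k z}) PA univ
        (ENNReal.ofReal (3 * dD)) monotone_id monotone_id bddAbove_Iic ?_ ?_ ?_
      · have hsub : (univ ∩ ⋃ k ∈ Iic B,
            {x | ∃ z, (z ∈ P ∧ z ∈ Q) ∧ R z = k ∧ x ∈ RQ s k k z}) ⊆ Ft F R ∩ RQ s a B y := by
          rintro x ⟨-, hx⟩
          simp only [mem_iUnion] at hx
          obtain ⟨k, hkB, z, ⟨hzP, hzQ⟩, hRz, hxz⟩ := hx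
          have hkB' : k ≤ B := hkB
          refine ⟨⟨z, hPF hzP, ?_⟩, ?_⟩
          · rw [hRz]; exact cell_DQ5 hLGR hs hxz
          · rw [← heq a B y z hzQ]
            exact hmon k k a B z (hkB'.trans hBa) hkB' hxz
        apply rich_of (x := θ' * (2 : ℝ) ^ (a + B)) hκ one_pos (by ring)
        calc ENNReal.ofReal (θ' * (2 : ℝ) ^ (a + B)) ≤ volume (P ∩ Q) := hrich
          _ ≤ 2 * volume PA := hA
          _ ≤ 2 * (ENNReal.ofReal (3 * dD) * volume (Ft F R ∩ RQ s a B y)) :=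
              mul_le_mul_right (key.trans (mul_le_mul_right (measure_mono hsub) _)) _
          _ = ENNReal.ofReal (2 * (3 * dD)) * volume (Ft F R ∩ RQ s a B y) := by
              rw [← mul_assoc, ENNReal.ofReal_mul two_pos.le]
              norm_num
          _ ≤ ENNReal.ofReal (10 * κ₀ * 1) * volume (Ft F R ∩ RQ s a B y) :=
              mul_le_mul_left (ENNReal.ofReal_le_ofReal (by linarith)) _
      · rintro k - y' ⟨z, hz, hRz, hy'⟩ x hx
        refine ⟨z, hz, hRz, ?_⟩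
        rw [← heq k k z y' hy']
        exact hx
      · rintro z ⟨⟨hzP, hzB⟩, hzQ⟩
        simp only [mem_iUnion]
        exact ⟨R z, hzB, z, ⟨hzP, hzQ⟩, rfl, hself _ _ z⟩
      · rintro k hkB y' ⟨z₀, hz₀, hRz, hy'⟩
        have e1 : RQ s k k y' = RQ s k k z₀ := heq k k z₀ y' hy'
        have e2 : ({z | z ∈ PA ∧ ∀ k' ∈ Iic B, k < k' →
            z ∉ {x | ∃ z, (z ∈ P ∧ z ∈ Q) ∧ R z = k' ∧ x ∈ RQ s k' k' z}} ∩ RQ s (id k) (id k) y') ⊆
            {z' | z' ∈ P ∧ R z' ≤ k} ∩ RQ s k k z₀ := by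
          rintro z ⟨⟨⟨⟨hzP, hzB⟩, hzQ⟩, hno⟩, hzc⟩
          refine ⟨⟨hzP, ?_⟩, ?_⟩
          · by_contra h
            push Not at h
            exact hno (R z) hzB h ⟨z, ⟨hzP, hzQ⟩, rfl, hself _ _ z⟩
          · rw [← e1]; exact hzc
        refine (measure_mono e2).trans ?_
        have e3 := three_squares hs k z₀ {z' | z' ∈ P ∧ R z' ≤ k}
          (ENNReal.ofReal (dD * (4 : ℝ) ^ k)) (by
            rintro z' ⟨hz'P, hz'k⟩
            refine (measure_mono ?_).trans (hd z' hz'P k hz'k)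
            exact inter_subset_inter_left _ fun w hw => hw.1)
        refine e3.trans (le_of_eq ?_)
        rw [univ_inter]
        show 3 * ENNReal.ofReal (dD * (4 : ℝ) ^ k) = ENNReal.ofReal (3 * dD) * volume (RQ s k k y')
        rw [(hLGR.1 s k k y').2.1, ← ENNReal.ofReal_mul (by positivity)]
        have e4 : (3 : ℝ≥0∞) = ENNReal.ofReal 3 := by norm_num
        rw [e4, ← ENNReal.ofReal_mul (by norm_num)]
        congr 1
        have e5 : (4 : ℝ) ^ k = (2 : ℝ) ^ (k + k) := by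
          rw [zpow_add₀ two_ne_zero, ← mul_zpow]
          norm_num
        rw [e5]
        ring
  · -- Case B
    have hBfin : volume PB ≠ ∞ := ((measure_mono fun z hz => hz.1).trans_lt
      (lt_top_iff_ne_top.2 hPfin)).ne
    have hB2 : volume (P ∩ Q) ≤ 2 * volume PB := by
      by_contra h
      push Not at h
      have h1 : 2 * volume PA + 2 * volume PB < volume (P ∩ Q) + volume (P ∩ Q) :=
        ENNReal.add_lt_add hA h
      have h2 : volume (P ∩ Q) + volume (P ∩ Q) ≤ 2 * volume PA + 2 * volume PB := by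
        rw [← two_mul, ← mul_add]
        exact mul_le_mul_right hsplit _
      exact absurd h1 (not_lt.2 h2)
    have hBpos : 0 < volume PB := by
      rw [pos_iff_ne_zero]
      intro h
      rw [h, mul_zero] at hB2
      exact absurd hpos (not_lt.2 hB2)
    set Xs : ℤ → Set Pl := fun b => {z | z ∈ PB ∧ ∃ z₀, (z₀ ∈ P ∧ z₀ ∈ Q) ∧ b ≤ R z₀ ∧
      z ∈ RQ s (R z₀) B z₀} with hXs
    have hp1 : volume PB ≤ 2 * volume (Xs (B + 1)) := by
      have : PB ⊆ Xs (B + 1) := by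
        rintro z ⟨hz, hRz⟩
        exact ⟨⟨hz, hRz⟩, z, hz, hRz, hself _ _ z⟩
      refine (measure_mono this).trans ?_
      calc volume (Xs (B + 1)) = 1 * volume (Xs (B + 1)) := (one_mul _).symm
        _ ≤ 2 * volume (Xs (B + 1)) := mul_le_mul_left (by norm_num) _
    obtain ⟨B', hpB', hmax⟩ := Int.exists_greatest_of_bdd
      (P := fun b => volume PB ≤ 2 * volume (Xs b)) ⟨a, fun b hb => by
        by_contra hba
        push Not at hba
        have : Xs b = ∅ := by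
          ext z
          simp only [hXs, mem_setOf_eq, mem_empty_iff_false, iff_false]
          rintro ⟨-, z₀, hz₀, h1, -⟩
          have := ha z₀ hz₀.1
          omega
        rw [this] at hb
        simp only [measure_empty, mul_zero] at hb
        exact absurd hBpos (not_lt.2 hb)⟩ ⟨B + 1, hp1⟩
    have hBB' : B + 1 ≤ B' := hmax (B + 1) hp1
    have hB'a : B' ≤ a := by
      by_contra hba
      push Not at hba
      have : Xs B' = ∅ := by
        ext z
        simp only [hXs, mem_setOf_eq, mem_empty_iff_false, iff_false]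
        rintro ⟨-, z₀, hz₀, h1, -⟩
        have := ha z₀ hz₀.1
        omega
      rw [this] at hpB'
      simp only [measure_empty, mul_zero] at hpB'
      exact absurd hBpos (not_lt.2 hpB')
    have hnot : 2 * volume (Xs (B' + 1)) < volume PB := by
      by_contra h
      push Not at h
      have := hmax (B' + 1) h
      omega
    refine ⟨B', by omega, hB'a, ?_, ?_⟩
    · -- the points with `R z ≤ B'`
      set W : Set Pl := {z | z ∈ P ∧ R z ≤ B'} ∩ Q with hW
      have h1 : volume PB ≤ volume (Xs (B' + 1)) + volume W := by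
        refine (measure_mono ?_).trans (measure_union_le _ _)
        rintro z ⟨⟨hzP, hzQ⟩, hRz⟩
        rcases le_or_gt (R z) B' with h | h
        · exact Or.inr ⟨⟨hzP, h⟩, hzQ⟩
        · exact Or.inl ⟨⟨⟨hzP, hzQ⟩, hRz⟩, z, ⟨hzP, hzQ⟩, h, hself _ _ z⟩
      have h2 : volume PB ≤ 2 * volume W := by
        have h3 : volume PB + volume PB ≤ volume PB + 2 * volume W := by
          calc volume PB + volume PB = 2 * volume PB := (two_mul _).symm
            _ ≤ 2 * (volume (Xs (B' + 1)) + volume W) := mul_le_mul_right h1 _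
            _ = 2 * volume (Xs (B' + 1)) + 2 * volume W := mul_add _ _ _
            _ ≤ volume PB + 2 * volume W := add_le_add hnot.le le_rfl
        exact (ENNReal.add_le_add_iff_left hBfin).1 h3
      calc volume (P ∩ Q) ≤ 2 * volume PB := hB2
        _ ≤ 2 * (2 * volume W) := mul_le_mul_right h2 _
        _ = 4 * volume W := by rw [← mul_assoc]; norm_num
    · have key := hLMX s id (fun _ => B') (Icc B' a)
        (fun k => {x | ∃ z, (z ∈ P ∧ z ∈ Q) ∧ R z = k ∧ x ∈ RQ s k B' z}) (Xs B') univ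
        (ENNReal.ofReal (κ₀ * (2 : ℝ) ^ (B - B'))) monotone_id monotone_const bddAbove_Icc ?_ ?_ ?_
      · have hsub : (univ ∩ ⋃ k ∈ Icc B' a,
            {x | ∃ z, (z ∈ P ∧ z ∈ Q) ∧ R z = k ∧ x ∈ RQ s k B' z}) ⊆ Ft F R ∩ RQ s a B' y := by
          rintro x ⟨-, hx⟩
          simp only [mem_iUnion] at hx
          obtain ⟨k, ⟨hk1, hk2⟩, z, ⟨hzP, hzQ⟩, hRz, hxz⟩ := hx
          refine ⟨⟨z, hPF hzP, ?_⟩, ?_⟩
          · rw [hRz]
            exact cell_DQ5 hLGR hs (hmon k B' k k z le_rfl hk1 hxz)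
          · have h1 : z ∈ RQ s a B' y := hmon a B a B' y le_rfl (by omega) hzQ
            rw [← heq a B' y z h1]
            exact hmon k B' a B' z hk2 le_rfl hxz
        apply rich_of (x := θ' * (2 : ℝ) ^ (a + B)) (t := (2 : ℝ) ^ (B - B')) hκ (by positivity) (by
          rw [mul_assoc, ← zpow_add₀ two_ne_zero]
          congr 2
          ring)
        calc ENNReal.ofReal (θ' * (2 : ℝ) ^ (a + B)) ≤ volume (P ∩ Q) := hrich
          _ ≤ 2 * volume PB := hB2
          _ ≤ 2 * (2 * volume (Xs B')) := mul_le_mul_right hpB' _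
          _ ≤ 2 * (2 * (ENNReal.ofReal (κ₀ * (2 : ℝ) ^ (B - B')) *
                volume (Ft F R ∩ RQ s a B' y))) :=
              mul_le_mul_right (mul_le_mul_right (key.trans
                (mul_le_mul_right (measure_mono hsub) _)) _) _
          _ = ENNReal.ofReal (4 * (κ₀ * (2 : ℝ) ^ (B - B'))) * volume (Ft F R ∩ RQ s a B' y) := by
              have e4 : ENNReal.ofReal 4 = 2 * 2 := by norm_num
              rw [ENNReal.ofReal_mul (by norm_num : (0 : ℝ) ≤ 4), e4]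
              ring
          _ ≤ ENNReal.ofReal (10 * κ₀ * (2 : ℝ) ^ (B - B')) * volume (Ft F R ∩ RQ s a B' y) := by
              refine mul_le_mul_left (ENNReal.ofReal_le_ofReal ?_) _
              have : 0 < κ₀ * (2 : ℝ) ^ (B - B') := by positivity
              nlinarith
      · rintro k - y' ⟨z, hz, hRz, hy'⟩ x hx
        refine ⟨z, hz, hRz, ?_⟩
        rw [← heq k B' z y' hy']
        exact hx
      · rintro z ⟨-, z₀, hz₀, h1, h2⟩
        simp only [mem_iUnion]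
        exact ⟨R z₀, ⟨h1, ha z₀ hz₀.1⟩, z₀, hz₀, rfl,
          hmon (R z₀) B (R z₀) B' z₀ le_rfl (by omega) h2⟩
      · rintro k ⟨hk1, hk2⟩ y' ⟨z₀, hz₀, hRz, hy'⟩
        have e1 : RQ s k B' y' = RQ s k B' z₀ := heq k B' z₀ y' hy'
        have e2 : ({z | z ∈ Xs B' ∧ ∀ k' ∈ Icc B' a, k < k' →
            z ∉ {x | ∃ z, (z ∈ P ∧ z ∈ Q) ∧ R z = k' ∧ x ∈ RQ s k' B' z}} ∩
              RQ s (id k) B' y') ⊆
            {z' | z' ∈ P ∧ R z' ≤ R z₀} ∩ RQ s (R z₀) B z₀ := by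
          rintro z ⟨⟨⟨⟨⟨hzP, hzQ⟩, hRB⟩, -⟩, hno⟩, hzc⟩
          refine ⟨⟨hzP, ?_⟩, ?_⟩
          · by_contra h
            push Not at h
            rw [hRz] at h
            exact hno (R z) ⟨by omega, ha z hzP⟩ h ⟨z, ⟨hzP, hzQ⟩, rfl, hself _ _ z⟩
          · have h1 : z ∈ RQ s k B' z₀ := by rw [← e1]; exact hzc
            rw [hRz]
            exact ⟨h1.1, hzQ.2.trans hz₀.2.2.symm⟩
        refine (measure_mono e2).trans ((hk z₀ hz₀.1 (by omega)).trans (le_of_eq ?_))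
        rw [univ_inter]
        show ENNReal.ofReal (κ₀ * (2 : ℝ) ^ (R z₀ + B)) =
          ENNReal.ofReal (κ₀ * (2 : ℝ) ^ (B - B')) * volume (RQ s k B' y')
        rw [(hLGR.1 s k B' y').2.1, ← ENNReal.ofReal_mul (by positivity), mul_assoc,
          ← zpow_add₀ two_ne_zero, hRz]
        congr 3
        ring

end Pool.Agent.Helper79.ES
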